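import Mathlib
import Pool.Agent.H278R2.UltraLocal

/-!
# Balanced quadruples of an ultrametric
-/

namespace Pool.Agent.T2H15.CO

/-- `x, y, z, t` is a balanced quadruple of the ultrametric `ρ`: the set `{x, y, z, t}` splits at
the top into the two pairs `{x, y}` and `{z, t}`. -/
def Balanced {V : Type*} (ρ : V → V → ℕ) (x y z t : V) : Prop :=
  x ≠ y ∧ z ≠ t ∧ ρ x y < ρ x z ∧ ρ z t < ρ x z

/-- The four triples of `{x, y, z, t}` have the same colour. -/
def SameColour {V : Type*} [DecidableEq V] {q : ℕ} (c : Finset V → Fin q) (x y z t : V) : Prop :=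
  c {x, y, z} = c {x, y, t} ∧ c {x, y, z} = c {x, z, t} ∧ c {x, y, z} = c {y, z, t}

end Pool.Agent.T2H15.CO
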