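import Pool.Agent.T2H15.CO.Main
import Pool.Agent.Y424.LK.Four

/-!
# Four colours: the colouring of Erdős and Hajnal has no homogeneous balanced quadruple
-/

namespace Pool.Agent.T2H15.CO

open Finset Pool.Agent.H278R2.UltraLocal Pool.Agent.TH138.NF Pool.Agent.Y424.LK

/-- the ultrametric of binary expansions -/
def rho (j : ℕ) (x y : Fin (2 ^ 2 ^ j)) : ℕ := if x = y then 0 else hh x y + 1

theorem rho_ultra (j : ℕ) : IsUltrametric (rho j) := by
  refine ⟨fun x y => ?_, fun x y => ?_, fun x y z => ?_⟩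
  · unfold rho
    split_ifs with h
    · simp [h]
    · simp [h]
  · unfold rho
    by_cases h : x = y
    · rw [if_pos h, if_pos h.symm]
    · rw [if_neg h, if_neg (Ne.symm h), hh_comm]
  · unfold rho
    by_cases h1 : x = z
    · rw [if_pos h1]
      exact Nat.zero_le _
    by_cases h2 : x = y
    · subst h2
      rw [if_neg h1]
      exact le_max_right _ _
    by_cases h3 : y = z
    · subst h3
      rw [if_neg h1]
      exact le_max_left _ _
    rw [if_neg h1, if_neg h2, if_neg h3]
    rcases le_max_iff.1 (ultra x y z) with h | h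
    · exact le_max_of_le_left (Nat.add_le_add_right h 1)
    · exact le_max_of_le_right (Nat.add_le_add_right h 1)

theorem rho_le (j : ℕ) (x y : Fin (2 ^ 2 ^ j)) : rho j x y ≤ 2 ^ j := by
  unfold rho
  split_ifs with h
  · exact Nat.zero_le _
  · exact hh_bound Nat.one_le_two_pow x.2 y.2

theorem rho_eq {j : ℕ} {x y : Fin (2 ^ 2 ^ j)} (h : x ≠ y) : rho j x y = hh x y + 1 := if_neg h

theorem rho_equilateral (j : ℕ) (S : Finset (Fin (2 ^ 2 ^ j))) (hS : Equilateral (rho j) S) :
    S.card ≤ 2 := by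
  by_contra hcon
  obtain ⟨T, hTS, hT⟩ := exists_subset_card_eq (show 3 ≤ S.card by omega)
  obtain ⟨D, hD⟩ := hS
  set f := T.orderEmbOfFin hT with hf
  have hm : ∀ i, f i ∈ S := fun i => hTS (orderEmbOfFin_mem T hT i)
  have h01 : f 0 < f 1 := (f.lt_iff_lt).2 (by decide)
  have h12 : f 1 < f 2 := (f.lt_iff_lt).2 (by decide)
  have e1 := hD _ (hm 0) _ (hm 1) h01.ne
  have e2 := hD _ (hm 1) _ (hm 2) h12.ne
  rw [rho_eq h01.ne] at e1
  rw [rho_eq h12.ne] at e2
  have h3 := hd_ne (show ((f 0 : Fin (2 ^ 2 ^ j)) : ℕ) < f 1 from h01)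
    (show ((f 1 : Fin (2 ^ 2 ^ j)) : ℕ) < f 2 from h12)
  rw [hh_lt (show ((f 0 : Fin (2 ^ 2 ^ j)) : ℕ) < f 1 from h01)] at e1
  rw [hh_lt (show ((f 1 : Fin (2 ^ 2 ^ j)) : ℕ) < f 2 from h12)] at e2
  omega

/-- the colouring of the triples of natural numbers below `2 ^ 2 ^ j` -/
noncomputable def col (χ : ℕ → ℕ → Bool) (j : ℕ) (A : Finset ℕ) : Bool × Bool :=
  colour (base χ j) (false, false) A

theorem col_ne (χ : ℕ → ℕ → Bool) (j : ℕ) {x y z t : ℕ} (hxy : x < y) (hyz : y < z) (hzt : z < t)
    (ht : t < 2 ^ 2 ^ j) (h1 : hh x y < hh y z) (h2 : hh z t < hh y z) :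
    col χ j {x, y, z} ≠ col χ j {y, z, t} := by
  unfold col
  rw [colour3 χ j hxy hyz (hzt.trans ht), colour3 χ j hyz hzt ht]
  unfold f3
  intro h
  have h3 := (Prod.mk.inj h).2
  rw [decide_eq_true h1] at h3
  have h4 := (decide_eq_true_iff).1 h3.symm
  omega

theorem hh_between {x y z : ℕ} (hxz : x < z) (hzy : z < y) : hh x z ≤ hh x y := by
  rw [hh_lt hxz, hh_lt (hxz.trans hzy), hd_max hxz hzy]
  exact le_max_left _ _

theorem hh_between' {x y z : ℕ} (hxz : x < z) (hzy : z < y) : hh z y ≤ hh x y := by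
  rw [hh_lt hzy, hh_lt (hxz.trans hzy), hd_max hxz hzy]
  exact le_max_right _ _

/-- no homogeneous balanced quadruple, pairs sorted -/
theorem no_quad_aux (χ : ℕ → ℕ → Bool) (j : ℕ) {x y z t : ℕ}
    (hy : y < 2 ^ 2 ^ j) (ht : t < 2 ^ 2 ^ j) (hxy : x < y) (hzt : z < t)
    (hxz' : x ≠ z) (hyz' : y ≠ z) (hxt' : x ≠ t)
    (h1 : hh x y < hh x z) (h2 : hh z t < hh x z)
    (k1 : col χ j {x, y, z} = col χ j {y, z, t}) (k2 : col χ j {x, z, t} = col χ j {x, y, t}) :
    False := by
  have u1 := ultra x y z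
  have u2 := ultra y x z
  have u3 := ultra x z t
  have u4 := ultra x t z
  have u5 := ultra t x y
  have u6 := ultra z t x
  rw [hh_comm y x] at u2
  have eyz : hh y z = hh x z := by
    apply le_antisymm
    · refine u2.trans (max_le h1.le le_rfl)
    · rcases le_max_iff.1 u1 with h | h
      · omega
      · exact h
  have ext : hh x t = hh x z := by
    apply le_antisymm
    · exact u3.trans (max_le le_rfl h2.le)
    · rcases le_max_iff.1 u4 with h | h
      · exact h
      · rw [hh_comm t z] at h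
        omega
  -- the position of `z` and `t`
  rcases lt_trichotomy z x with hzx | hzx | hzx
  · -- `z < x`, hence `t < x`
    rcases lt_trichotomy t x with htx | htx | htx
    · have e : hh t x = hh x z := by rw [hh_comm, ext]
      refine col_ne χ j hzt htx hxy hy (by rw [e]; exact h2) (by rw [e]; exact h1) ?_
      have a1 : ({z, t, x} : Finset ℕ) = {x, z, t} := by
        ext w
        simp only [mem_insert, mem_singleton]
        tauto
      have a2 : ({t, x, y} : Finset ℕ) = {x, y, t} := by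
        ext w
        simp only [mem_insert, mem_singleton]
        tauto
      rw [a1, a2, k2]
    · exact hxt' htx.symm
    · have := hh_between hzx htx
      rw [hh_comm z x] at this
      omega
  · exact hxz' hzx.symm
  · rcases lt_trichotomy z y with hzy | hzy | hzy
    · have := hh_between hzx hzy
      omega
    · exact hyz' hzy.symm
    · exact col_ne χ j hxy hzy hzt ht (by rw [eyz]; exact h1) (by rw [eyz]; exact h2) k1

/-- four colours -/
theorem four (j : ℕ) : ∃ c : Finset (Fin (2 ^ 2 ^ j)) → Fin 4,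
    (∀ i, ∀ S : Finset (Fin (2 ^ 2 ^ j)), Mono c i S → S.card < 4 * j + 5) ∧
      NoQuad (rho j) c := by
  classical
  obtain ⟨χ, hχ⟩ := base_lower j
  have e : Bool × Bool ≃ Fin 4 := Fintype.equivOfCardEq (by simp)
  refine ⟨fun T => e (col χ j (T.map Fin.valEmbedding)), ?_, ?_⟩
  · intro i S hS
    by_contra hcon
    obtain ⟨T, hT, hTc⟩ := exists_subset_card_eq (show 4 * j + 5 ≤ S.card by omega)
    refine hχ (T.map Fin.valEmbedding) ?_ (by rw [card_map, hTc]) ?_
    · intro x hx
      obtain ⟨a, _, rfl⟩ := mem_map.1 hx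
      exact mem_range.2 a.2
    · refine hom_of_homogeneous (computes_colour (base χ j) (false, false) (2 ^ 2 ^ j)) ?_ ?_
      · intro x hx
        obtain ⟨a, _, rfl⟩ := mem_map.1 hx
        exact mem_range.2 a.2
      · have key : ∀ A ⊆ T.map Fin.valEmbedding, A.card = 2 + 1 →
            colour (base χ j) (false, false) A = e.symm i := by
          intro A hA hAc
          obtain ⟨B, hB, rfl⟩ := subset_map_iff.1 hA
          rw [card_map] at hAc
          have := hS B (hB.trans hT) hAc
          rw [← this, Equiv.symm_apply_apply]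
          rfl
        intro A hA B hB hAc hBc
        rw [key A hA hAc, key B hB hBc]
  · rintro x y z t ⟨hxy, hzt, h1, h2⟩ ⟨k1, k2, k3⟩
    have hul := rho_ultra j
    have hpos : ∀ u v, u ≠ v → 0 < rho j u v := by
      intro u v huv
      rw [rho_eq huv]
      omega
    have h0 := hpos x y hxy
    have hxz : x ≠ z := by
      rintro rfl
      have := (hul.zero_iff x x).2 rfl
      omega
    have hyz : y ≠ z := by
      rintro rfl
      omega
    have hxt : x ≠ t := by
      rintro rfl
      rw [hul.symm] at h2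
      omega
    have hyt : y ≠ t := by
      rintro rfl
      have := hul.tri x y z
      rw [hul.symm y z] at this
      have h3 : max (rho j x y) (rho j z y) < rho j x z := max_lt h1 h2
      omega
    rw [rho_eq hxy, rho_eq hxz] at h1
    rw [rho_eq hzt, rho_eq hxz] at h2
    have h1' : hh x y < hh x z := by omega
    have h2' : hh z t < hh x z := by omega
    have u2 := ultra (y : ℕ) x z
    have u1 := ultra (x : ℕ) y z
    have u3 := ultra (x : ℕ) z t
    have u4 := ultra (x : ℕ) t z
    have u7 := ultra (y : ℕ) x t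
    have u8 := ultra (x : ℕ) y t
    rw [hh_comm y x] at u2 u7
    rw [hh_comm t z] at u4
    have eyz : hh y z = hh x z := by
      apply le_antisymm
      · exact u2.trans (max_le h1'.le le_rfl)
      · rcases le_max_iff.1 u1 with h | h
        · omega
        · exact h
    have ext : hh x t = hh x z := by
      apply le_antisymm
      · exact u3.trans (max_le le_rfl h2'.le)
      · rcases le_max_iff.1 u4 with h | h
        · exact h
        · omega
    have eyt : hh y t = hh x z := by
      apply le_antisymm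
      · exact u7.trans (max_le h1'.le ext.le)
      · rcases le_max_iff.1 u8 with h | h
        · omega
        · omega
    have m3 : ∀ a b d : Fin (2 ^ 2 ^ j), (({a, b, d} : Finset (Fin (2 ^ 2 ^ j))).map
        Fin.valEmbedding) = {(a : ℕ), (b : ℕ), (d : ℕ)} := by
      intro a b d
      simp [Finset.map_insert]
    simp only [EmbeddingLike.apply_eq_iff_eq, m3] at k1 k2 k3
    have nxz : (x : ℕ) ≠ z := fun h => hxz (Fin.ext h)
    have nyz : (y : ℕ) ≠ z := fun h => hyz (Fin.ext h)
    have nxt : (x : ℕ) ≠ t := fun h => hxt (Fin.ext h)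
    have nyt : (y : ℕ) ≠ t := fun h => hyt (Fin.ext h)
    have nxy : (x : ℕ) ≠ y := fun h => hxy (Fin.ext h)
    have nzt : (z : ℕ) ≠ t := fun h => hzt (Fin.ext h)
    have p1 : ({(y : ℕ), (x : ℕ), (z : ℕ)} : Finset ℕ) = {(x : ℕ), (y : ℕ), (z : ℕ)} :=
      insert_comm _ _ _
    have p2 : ({(y : ℕ), (x : ℕ), (t : ℕ)} : Finset ℕ) = {(x : ℕ), (y : ℕ), (t : ℕ)} :=
      insert_comm _ _ _
    have p3 : ({(x : ℕ), (t : ℕ), (z : ℕ)} : Finset ℕ) = {(x : ℕ), (z : ℕ), (t : ℕ)} := by
      rw [pair_comm (t : ℕ) z]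
    have p4 : ({(y : ℕ), (t : ℕ), (z : ℕ)} : Finset ℕ) = {(y : ℕ), (z : ℕ), (t : ℕ)} := by
      rw [pair_comm (t : ℕ) z]
    rcases lt_or_gt_of_ne nxy with hlt | hlt <;> rcases lt_or_gt_of_ne nzt with hlt2 | hlt2
    · exact no_quad_aux χ j y.2 t.2 hlt hlt2 nxz nyz nxt h1' h2' k3
        (k2.symm.trans k1)
    · refine no_quad_aux χ j y.2 z.2 hlt hlt2 nxt nyt nxz (by rw [ext]; exact h1')
        (by rw [hh_comm, ext]; exact h2') ?_ ?_
      · rw [p4, ← k1, k3]
      · rw [p3, ← k2]
    · refine no_quad_aux χ j x.2 t.2 hlt hlt2 nyz nxz nyt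
        (by rw [hh_comm, eyz]; exact h1') (by rw [eyz]; exact h2') ?_ ?_
      · rw [p1, k2]
      · rw [p2, ← k1, k3]
    · refine no_quad_aux χ j x.2 z.2 hlt hlt2 nyt nxt nyz
        (by rw [hh_comm, eyt]; exact h1') (by rw [hh_comm, eyt]; exact h2') ?_ ?_
      · rw [p2, p3, ← k1, k2]
      · rw [p1, p4, k3]

end Pool.Agent.T2H15.CO
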