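import Pool.Agent.T2H15.CO.Step2

/-!
# The recursion
-/

namespace Pool.Agent.T2H15.CO

open Finset Pool.Agent.H278R2.UltraLocal

variable {V : Type*} [DecidableEq V]

theorem mono_insert {q : ℕ} {c : Finset V → Fin q} {a : Fin q} {S : Finset V} {z : V}
    (hS : Mono c a S) (hz : ∀ x ∈ S, ∀ y ∈ S, x ≠ y → c {x, y, z} = a) :
    Mono c a (insert z S) := by
  intro T hT hT3
  by_cases hzT : z ∈ T
  · obtain ⟨x, y, hxy, hE⟩ := card_eq_two.1
      (show (T.erase z).card = 2 by rw [card_erase_of_mem hzT, hT3])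
    have hx : x ∈ T.erase z := by rw [hE]; simp
    have hy : y ∈ T.erase z := by rw [hE]; simp
    have hxS : x ∈ S := (mem_insert.1 (hT (mem_of_mem_erase hx))).resolve_left (mem_erase.1 hx).1
    have hyS : y ∈ S := (mem_insert.1 (hT (mem_of_mem_erase hy))).resolve_left (mem_erase.1 hy).1
    have hTe : T = {x, y, z} := by
      rw [← insert_erase hzT, hE]
      ext w
      simp only [mem_insert, mem_singleton]
      tauto
    rw [hTe]
    exact hz x hxS y hyS hxy
  · refine hS T (fun w hw => ?_) hT3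
    refine (mem_insert.1 (hT hw)).resolve_left ?_
    rintro rfl
    exact hzT hw

omit [DecidableEq V] in
theorem mono_of_card_le {q : ℕ} {c : Finset V → Fin q} {a : Fin q} {S : Finset V}
    (hS : S.card ≤ 2) : Mono c a S := by
  intro T hT hT3
  have := card_le_card hT
  omega

/-- the recursion -/
theorem main {ρ : V → V → ℕ} (hρ : IsUltrametric ρ) (K : ℕ) (hK1 : 1 ≤ K)
    (hK : ∀ S : Finset V, Equilateral ρ S → S.card ≤ K) (h : ℕ) (hh : ∀ x y, ρ x y ≤ h)
    {c : Finset V → Fin 2} (hq : NoQuad ρ c) (n r : ℕ) (hr : (n - 1).choose 2 < r) (m : ℕ) :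
    ∀ u v : ℕ, u + v = m → u + 2 ≤ n → v + 2 ≤ n → ∀ A : Finset V,
      (8 * K * r ^ 3) ^ m * (2 + h * r) ≤ A.card →
      (∃ S ⊆ A, S.card = u + 2 ∧ Mono c 0 S) ∨ ∃ S ⊆ A, S.card = v + 2 ∧ Mono c 1 S := by
  have hr1 : 1 ≤ r := by omega
  have hB : 1 ≤ 8 * K * r ^ 3 := by
    have := Nat.one_le_pow 3 r hr1
    nlinarith
  induction m with
  | zero =>
    intro u v huv hu hv A hA
    left
    rw [pow_zero, one_mul] at hA
    obtain ⟨S, hS, hS2⟩ := exists_subset_card_eq (show u + 2 ≤ A.card by omega)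
    exact ⟨S, hS, hS2, mono_of_card_le (by omega)⟩
  | succ m ih =>
    intro u v huv hu hv A hA
    have hw2 : 2 + h * r ≤ (8 * K * r ^ 3) ^ m * (2 + h * r) :=
      Nat.le_mul_of_pos_left _ (Nat.pow_pos hB)
    have hpow : (8 * K * r ^ 3) ^ (m + 1) * (2 + h * r) =
        8 * (K * r ^ 3 * ((8 * K * r ^ 3) ^ m * (2 + h * r))) := by ring
    set W := (8 * K * r ^ 3) ^ m * (2 + h * r) with hW
    have hKr : 1 ≤ K * r ^ 3 := Nat.mul_pos hK1 (Nat.pow_pos hr1)
    have hA8 : 8 * (K * r ^ 3 * W) ≤ A.card := by rw [← hpow]; exact hA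
    have hWW : W ≤ K * r ^ 3 * W := Nat.le_mul_of_pos_left _ hKr
    rcases Nat.eq_zero_or_pos u with hu0 | hu0
    · left
      obtain ⟨S, hS, hS2⟩ := exists_subset_card_eq (show u + 2 ≤ A.card by omega)
      exact ⟨S, hS, hS2, mono_of_card_le (by omega)⟩
    rcases Nat.eq_zero_or_pos v with hv0 | hv0
    · right
      obtain ⟨S, hS, hS2⟩ := exists_subset_card_eq (show v + 2 ≤ A.card by omega)
      exact ⟨S, hS, hS2, mono_of_card_le (by omega)⟩
    -- splitting
    have hsm : h * ((K - 1) * (r - 1)) ≤ K * W := by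
      calc h * ((K - 1) * (r - 1)) ≤ h * (K * r) :=
            Nat.mul_le_mul_left _ (Nat.mul_le_mul (Nat.sub_le _ _) (Nat.sub_le _ _))
        _ = K * (h * r) := by ring
        _ ≤ K * W := Nat.mul_le_mul_left _ (by omega)
    have hKW : K * W ≤ K * r ^ 3 * W :=
      Nat.mul_le_mul_right _ (Nat.le_mul_of_pos_right _ (Nat.pow_pos hr1))
    obtain ⟨L, hLA, M, hMA, hMr, hLc, hcross⟩ := split hρ K hK r hr1 h A
      (fun x _ y _ => hh x y) (by omega)
    obtain ⟨a, L', hL', hL'c, hgood⟩ := step hq n L M r hMr hr hcross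
    have hL'W : W ≤ L'.card := by
      by_contra hcon
      push Not at hcon
      have h1 : K * L.card ≤ K * (4 * r ^ 3 * L'.card) := Nat.mul_le_mul_left _ hL'c
      have h2 : K * (4 * r ^ 3 * L'.card) = 4 * (K * r ^ 3 * L'.card) := by ring
      have h3 : K * r ^ 3 * L'.card ≤ K * r ^ 3 * W := Nat.mul_le_mul_left _ hcon.le
      have h4 : 0 < W := by omega
      omega
    have hdisj : ∀ x ∈ L, ∀ z ∈ M, x ≠ z := by
      rintro x hx z hz rfl
      have := (hcross x hx x hz).1 x hx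
      omega
    rcases (show ∀ a : Fin 2, a = 0 ∨ a = 1 by decide) a with rfl | rfl
    · rcases ih (u - 1) v (by omega) (by omega) hv L' hL'W with ⟨S, hS, hSc, hSm⟩ | ⟨S, hS, hSc, hSm⟩
      · left
        obtain ⟨z, hz, hzS⟩ := hgood S hS (by omega)
        refine ⟨insert z S, ?_, ?_, mono_insert hSm hzS⟩
        · exact insert_subset (hMA hz) ((hS.trans hL').trans hLA)
        · rw [card_insert_of_notMem (fun hzs => hdisj z (hL' (hS hzs)) z hz rfl)]
          omega
      · right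
        exact ⟨S, (hS.trans hL').trans hLA, hSc, hSm⟩
    · rcases ih u (v - 1) (by omega) hu (by omega) L' hL'W with ⟨S, hS, hSc, hSm⟩ | ⟨S, hS, hSc, hSm⟩
      · left
        exact ⟨S, (hS.trans hL').trans hLA, hSc, hSm⟩
      · right
        obtain ⟨z, hz, hzS⟩ := hgood S hS (by omega)
        refine ⟨insert z S, ?_, ?_, mono_insert hSm hzS⟩
        · exact insert_subset (hMA hz) ((hS.trans hL').trans hLA)
        · rw [card_insert_of_notMem (fun hzs => hdisj z (hL' (hS hzs)) z hz rfl)]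
          omega

end Pool.Agent.T2H15.CO
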