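import Pool.Agent.T2H15.CO.Defs

/-!
# Splitting a large set of leaves into a large part and a part of prescribed size
-/

namespace Pool.Agent.T2H15.CO

open Finset Pool.Agent.H278R2.UltraLocal

variable {V : Type*} [DecidableEq V]

/-- A maximal equilateral set at distance `e + 1` through `x0` meets all balls of radius `e`. -/
theorem exists_transversal {ρ : V → V → ℕ} (hρ : IsUltrametric ρ) (A : Finset V) (e : ℕ)
    (hd : ∀ x ∈ A, ∀ y ∈ A, ρ x y ≤ e + 1) (x0 : V) (hx0 : x0 ∈ A) :
    ∃ T ⊆ A, x0 ∈ T ∧ (∀ x ∈ T, ∀ y ∈ T, x ≠ y → ρ x y = e + 1) ∧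
      ∀ y ∈ A, ∃ t ∈ T, ρ t y ≤ e := by
  classical
  set F : Finset (Finset V) := A.powerset.filter
    (fun T => x0 ∈ T ∧ ∀ x ∈ T, ∀ y ∈ T, x ≠ y → ρ x y = e + 1) with hF
  have hne : F.Nonempty := by
    refine ⟨{x0}, ?_⟩
    simp only [hF, mem_filter, mem_powerset, singleton_subset_iff, mem_singleton]
    refine ⟨hx0, trivial, ?_⟩
    rintro x rfl y rfl h
    exact absurd rfl h
  obtain ⟨T, hT, hmax⟩ := exists_max_image F card hne
  simp only [hF, mem_filter, mem_powerset] at hT
  obtain ⟨hTA, hxT, hTe⟩ := hT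
  refine ⟨T, hTA, hxT, hTe, fun y hy => ?_⟩
  by_contra hcon
  push Not at hcon
  have hyT : y ∉ T := by
    intro hyT
    have := hcon y hyT
    rw [(hρ.zero_iff y y).2 rfl] at this
    omega
  have hin : insert y T ∈ F := by
    simp only [hF, mem_filter, mem_powerset]
    refine ⟨insert_subset hy hTA, mem_insert_of_mem hxT, ?_⟩
    intro a ha b hb hab
    rw [mem_insert] at ha hb
    rcases ha with rfl | ha <;> rcases hb with rfl | hb
    · exact absurd rfl hab
    · have h1 := hcon b hb
      have h2 := hd a hy b (hTA hb)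
      rw [hρ.symm] at h1
      omega
    · have h1 := hcon a ha
      have h2 := hd a (hTA ha) b hy
      omega
    · exact hTe a ha b hb hab
  have := hmax _ hin
  rw [card_insert_of_notMem hyT] at this
  omega

/-- Splitting: a set of leaves which is large compared with the height contains two sets `L`, `M`
in different subtrees of a node, `M` having the prescribed size `r` and `L` being large. -/
theorem split {ρ : V → V → ℕ} (hρ : IsUltrametric ρ) (K : ℕ)
    (hK : ∀ S : Finset V, Equilateral ρ S → S.card ≤ K) (r : ℕ) (hr : 1 ≤ r) (d : ℕ) :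
    ∀ A : Finset V, (∀ x ∈ A, ∀ y ∈ A, ρ x y ≤ d) → 1 + d * ((K - 1) * (r - 1)) < A.card →
    ∃ L ⊆ A, ∃ M ⊆ A, M.card = r ∧ A.card ≤ K * L.card + d * ((K - 1) * (r - 1)) ∧
      ∀ x ∈ L, ∀ z ∈ M, (∀ x' ∈ L, ρ x x' < ρ x z) ∧ ∀ z' ∈ M, ρ z z' < ρ x z := by
  classical
  induction d with
  | zero =>
    intro A hd hA
    exfalso
    have h1 : A.card ≤ 1 := by
      rw [card_le_one]
      intro a ha b hb
      exact (hρ.zero_iff a b).1 (Nat.le_zero.1 (hd a ha b hb))
    omega
  | succ e ih =>
    intro A hd hA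
    have hAne : A.Nonempty := by
      rw [← card_pos]
      omega
    obtain ⟨x0, hx0, hmax⟩ := exists_max_image A
      (fun x => (A.filter (fun y => ρ x y ≤ e)).card) hAne
    set L := A.filter (fun y => ρ x0 y ≤ e) with hL
    obtain ⟨T, hTA, hxT, hTe, hcov⟩ := exists_transversal hρ A e hd x0 hx0
    have hTK : T.card ≤ K := hK T ⟨e + 1, hTe⟩
    have hAsub : A ⊆ T.biUnion (fun t => A.filter (fun y => ρ t y ≤ e)) := by
      intro y hy
      obtain ⟨t, ht, hty⟩ := hcov y hy
      exact mem_biUnion.2 ⟨t, ht, mem_filter.2 ⟨hy, hty⟩⟩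
    by_cases hbig : ∃ x1 ∈ A, e < ρ x0 x1 ∧ r ≤ (A.filter (fun y => ρ x1 y ≤ e)).card
    · obtain ⟨x1, hx1, hd1, hc1⟩ := hbig
      obtain ⟨M, hM, hMr⟩ := exists_subset_card_eq hc1
      refine ⟨L, filter_subset _ _, M, hM.trans (filter_subset _ _), hMr, ?_, ?_⟩
      · have h1 : A.card ≤ ∑ t ∈ T, (A.filter (fun y => ρ t y ≤ e)).card :=
          (card_le_card hAsub).trans card_biUnion_le
        have h2 : ∑ t ∈ T, (A.filter (fun y => ρ t y ≤ e)).card ≤ ∑ _t ∈ T, L.card :=
          sum_le_sum fun t ht => hmax t (hTA ht)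
        rw [sum_const, smul_eq_mul] at h2
        have h3 := Nat.mul_le_mul_right L.card hTK
        omega
      · intro x hx z hz
        have hxA := (mem_filter.1 hx).1
        have hxe := (mem_filter.1 hx).2
        have hzA := (mem_filter.1 (hM hz)).1
        have hze := (mem_filter.1 (hM hz)).2
        have hxz : e + 1 ≤ ρ x z := by
          by_contra hcon
          have h1 := hρ.tri x0 x x1
          have h2 := hρ.tri x z x1
          rw [hρ.symm z x1] at h2
          have h3 : max (ρ x z) (ρ x1 z) ≤ e := max_le (by omega) hze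
          have h4 : max (ρ x0 x) (ρ x x1) ≤ e := max_le hxe (h2.trans h3)
          omega
        constructor
        · intro x' hx'
          have h1 := hρ.tri x x0 x'
          rw [hρ.symm x x0] at h1
          have h2 : max (ρ x0 x) (ρ x0 x') ≤ e := max_le hxe (mem_filter.1 hx').2
          omega
        · intro z' hz'
          have h1 := hρ.tri z x1 z'
          rw [hρ.symm z x1] at h1
          have h2 : max (ρ x1 z) (ρ x1 z') ≤ e := max_le hze (mem_filter.1 (hM hz')).2
          omega
    · push Not at hbig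
      have hA2 : A.card ≤ L.card + (K - 1) * (r - 1) := by
        have h0 : A ⊆ L ∪ (T.erase x0).biUnion (fun t => A.filter (fun y => ρ t y ≤ e)) := by
          intro y hy
          obtain ⟨t, ht, hty⟩ := hcov y hy
          by_cases h : t = x0
          · subst h
            exact mem_union_left _ (mem_filter.2 ⟨hy, hty⟩)
          · exact mem_union_right _ (mem_biUnion.2 ⟨t, mem_erase.2 ⟨h, ht⟩,
              mem_filter.2 ⟨hy, hty⟩⟩)
        have h1 := (card_le_card h0).trans (card_union_le _ _)
        have h2 : ((T.erase x0).biUnion (fun t => A.filter (fun y => ρ t y ≤ e))).card ≤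
            ∑ _t ∈ T.erase x0, (r - 1) := by
          refine card_biUnion_le.trans (sum_le_sum fun t ht => ?_)
          have ht' := mem_erase.1 ht
          have h3 := hbig t (hTA ht'.2) (by rw [hTe x0 hxT t ht'.2 (Ne.symm ht'.1)]; omega)
          omega
        rw [sum_const, smul_eq_mul, card_erase_of_mem hxT] at h2
        have h3 := Nat.mul_le_mul_right (r - 1) (Nat.sub_le_sub_right hTK 1)
        omega
      have hLd : ∀ x ∈ L, ∀ y ∈ L, ρ x y ≤ e := by
        intro x hx y hy
        have h1 := hρ.tri x x0 y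
        rw [hρ.symm x x0] at h1
        exact h1.trans (max_le (mem_filter.1 hx).2 (mem_filter.1 hy).2)
      have hm : (e + 1) * ((K - 1) * (r - 1)) = e * ((K - 1) * (r - 1)) + (K - 1) * (r - 1) := by
        ring
      obtain ⟨L', hL', M, hM, hMr, hcard, hcross⟩ := ih L hLd (by omega)
      refine ⟨L', hL'.trans (filter_subset _ _), M, hM.trans (filter_subset _ _), hMr, ?_, hcross⟩
      omega

end Pool.Agent.T2H15.CO
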