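import Pool.Agent.T2H15.CO.Split

/-!
# The step: a point of the small part which sends one colour to the pairs of the large part
-/

namespace Pool.Agent.T2H15.CO

open Finset Pool.Agent.H278R2.UltraLocal

variable {V : Type*} [DecidableEq V]

/-- No balanced quadruple is homogeneous. -/
def NoQuad {q : ℕ} (ρ : V → V → ℕ) (c : Finset V → Fin q) : Prop :=
  ∀ x y z t, Balanced ρ x y z t → ¬ SameColour c x y z t

theorem fin2_ne {a b e : Fin 2} (h1 : a ≠ e) (h2 : b ≠ e) : a = b := by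
  revert a b e
  decide

theorem fin2_eq {a b e : Fin 2} (h1 : a ≠ e) (h2 : b ≠ e) : a = b := fin2_ne h1 h2

/-- The property of `M` and `L'`. -/
def Good (c : Finset V → Fin 2) (n : ℕ) (M L : Finset V) (a : Fin 2) : Prop :=
  ∀ S ⊆ L, S.card < n → ∃ z ∈ M, ∀ x ∈ S, ∀ y ∈ S, x ≠ y → c {x, y, z} = a

/-- If all triples with one point in `L` and two in `M` have colour `e` then every small subset of
`L` is joined in the other colour to a point of `M`. -/
theorem good_const {ρ : V → V → ℕ} {c : Finset V → Fin 2} (hq : NoQuad ρ c) (n : ℕ)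
    (L M : Finset V) (hM : (n - 1).choose 2 < M.card)
    (hc : ∀ x ∈ L, ∀ z ∈ M, (∀ x' ∈ L, ρ x x' < ρ x z) ∧ ∀ z' ∈ M, ρ z z' < ρ x z)
    (e a : Fin 2) (hea : e ≠ a) (he : ∀ x ∈ L, ∀ z ∈ M, ∀ t ∈ M, z ≠ t → c {x, z, t} = e) :
    Good c n M L a := by
  classical
  intro S hS hSn
  by_contra hcon
  push Not at hcon
  -- every `z ∈ M` has a bad pair
  have hbad : ∀ z ∈ M, ∃ P : Finset V, P ⊆ S ∧ P.card = 2 ∧
      c (insert z P) = e := by
    intro z hz
    obtain ⟨x, hx, y, hy, hxy, hne⟩ := hcon z hz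
    refine ⟨{x, y}, ?_, card_pair hxy, ?_⟩
    · intro w hw
      rw [mem_insert, mem_singleton] at hw
      rcases hw with rfl | rfl
      · exact hx
      · exact hy
    · have : (insert z {x, y} : Finset V) = {x, y, z} := by
        ext w
        simp only [mem_insert, mem_singleton]
        tauto
      rw [this]
      exact fin2_ne hne hea
  choose! P hP1 hP2 hP3 using hbad
  have hcard : (S.powersetCard 2).card < M.card := by
    rw [card_powersetCard]
    refine lt_of_le_of_lt (Nat.choose_le_choose 2 (by omega)) hM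
  obtain ⟨z, hz, t, ht, hzt, hPzt⟩ := exists_ne_map_eq_of_card_lt_of_maps_to hcard
    (f := P) (fun z hz => mem_powersetCard.2 ⟨hP1 z hz, hP2 z hz⟩)
  obtain ⟨x, y, hxy, hPxy⟩ := card_eq_two.1 (hP2 z hz)
  have hx : x ∈ L := hS (hP1 z hz (by rw [hPxy]; simp))
  have hy : y ∈ L := hS (hP1 z hz (by rw [hPxy]; simp))
  have e1 : c {x, y, z} = e := by
    have := hP3 z hz
    rw [hPxy] at this
    have h2 : (insert z {x, y} : Finset V) = {x, y, z} := by
      ext w
      simp only [mem_insert, mem_singleton]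
      tauto
    rwa [h2] at this
  have e2 : c {x, y, t} = e := by
    have := hP3 t ht
    rw [← hPzt, hPxy] at this
    have h2 : (insert t {x, y} : Finset V) = {x, y, t} := by
      ext w
      simp only [mem_insert, mem_singleton]
      tauto
    rwa [h2] at this
  refine hq x y z t ⟨hxy, hzt, (hc x hx z hz).1 y hy, (hc x hx z hz).2 t ht⟩ ⟨?_, ?_, ?_⟩
  · rw [e1, e2]
  · rw [e1, he x hx z hz t ht hzt]
  · rw [e1, he y hy z hz t ht hzt]

/-- The mixed case. -/
theorem good_mixed {ρ : V → V → ℕ} {c : Finset V → Fin 2} (hq : NoQuad ρ c) (n : ℕ)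
    (L M : Finset V)
    (hc : ∀ x ∈ L, ∀ z ∈ M, (∀ x' ∈ L, ρ x x' < ρ x z) ∧ ∀ z' ∈ M, ρ z z' < ρ x z)
    (e a : Fin 2) (hea : e ≠ a) (s z t : V) (hs : s ∈ M) (hz : z ∈ M) (ht : t ∈ M)
    (hsz : s ≠ z) (hst : s ≠ t) (hzt : z ≠ t)
    (h1 : ∀ x ∈ L, c {x, s, z} = e) (h2 : ∀ x ∈ L, c {x, s, t} = e)
    (h3 : ∀ x ∈ L, c {x, z, t} = a) : Good c n M L a := by
  intro S hS _
  refine ⟨s, hs, fun x hx y hy hxy => ?_⟩
  have hx := hS hx
  have hy := hS hy
  by_contra hcon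
  have k0 : c {x, y, s} = e := fin2_ne hcon hea
  have k1 : c {x, y, z} ≠ e := by
    intro h
    refine hq x y s z ⟨hxy, hsz, (hc x hx s hs).1 y hy, (hc x hx s hs).2 z hz⟩ ⟨?_, ?_, ?_⟩
    · rw [k0, h]
    · rw [k0, h1 x hx]
    · rw [k0, h1 y hy]
  have k2 : c {x, y, t} ≠ e := by
    intro h
    refine hq x y s t ⟨hxy, hst, (hc x hx s hs).1 y hy, (hc x hx s hs).2 t ht⟩ ⟨?_, ?_, ?_⟩
    · rw [k0, h]
    · rw [k0, h2 x hx]
    · rw [k0, h2 y hy]
  have k1' : c {x, y, z} = a := fin2_ne k1 hea.symm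
  have k2' : c {x, y, t} = a := fin2_ne k2 hea.symm
  refine hq x y z t ⟨hxy, hzt, (hc x hx z hz).1 y hy, (hc x hx z hz).2 t ht⟩ ⟨?_, ?_, ?_⟩
  · rw [k1', k2']
  · rw [k1', h3 x hx]
  · rw [k1', h3 y hy]

end Pool.Agent.T2H15.CO
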