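import Pool.Agent.T2H15.CO.Step

/-!
# The step, continued: the large part has a large good subset
-/

namespace Pool.Agent.T2H15.CO

open Finset Pool.Agent.H278R2.UltraLocal

variable {V : Type*} [DecidableEq V]

/-- A non-constant symmetric two-colouring of the pairs of a set has a triangle with exactly two
edges of the same colour. -/
theorem exists_mixed {f : V → V → Fin 2} (hf : ∀ a b, f a b = f b a) (M : Finset V)
    {a b d g : V} (ha : a ∈ M) (hb : b ∈ M) (hd : d ∈ M) (hg : g ∈ M) (hab : a ≠ b) (hdg : d ≠ g)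
    (hne : f a b ≠ f d g) : ∃ s ∈ M, ∃ z ∈ M, ∃ t ∈ M, s ≠ z ∧ s ≠ t ∧ z ≠ t ∧
      f s z = f s t ∧ f z t ≠ f s z := by
  by_contra hcon
  push Not at hcon
  have key : ∀ s ∈ M, ∀ z ∈ M, ∀ t ∈ M, s ≠ z → s ≠ t → f s z = f s t := by
    intro s hs z hz t ht hsz hst
    by_cases hzt : z = t
    · rw [hzt]
    by_contra hne'
    by_cases h1 : f z t = f s z
    · have := hcon z hz s hs t ht hsz.symm hzt hst (by rw [hf z s, h1])
      exact hne' (by rw [this, hf z s])
    · have h2 : f z t = f s t := fin2_ne h1 (Ne.symm hne')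
      have := hcon t ht s hs z hz hst.symm (Ne.symm hzt) hsz (by rw [hf t s, hf t z, h2])
      exact hne' (by rw [this, hf t s])
  apply hne
  by_cases had : a = d
  · subst had
    exact key a ha b hb g hg hab hdg
  · rw [key a ha b hb d hd hab had, hf a d]
    exact key d hd a ha g hg (Ne.symm had) hdg

/-- **Step.** -/
theorem step {ρ : V → V → ℕ} {c : Finset V → Fin 2} (hq : NoQuad ρ c) (n : ℕ)
    (L M : Finset V) (r : ℕ) (hMr : M.card = r) (hr : (n - 1).choose 2 < r)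
    (hc : ∀ x ∈ L, ∀ z ∈ M, (∀ x' ∈ L, ρ x x' < ρ x z) ∧ ∀ z' ∈ M, ρ z z' < ρ x z) :
    ∃ a : Fin 2, ∃ L' ⊆ L, L.card ≤ 4 * r ^ 3 * L'.card ∧ Good c n M L' a := by
  classical
  have hr1 : 1 ≤ r := by omega
  have hMne : M.Nonempty := by
    rw [← card_pos]
    omega
  rcases L.eq_empty_or_nonempty with hL | hL
  · refine ⟨0, ∅, empty_subset _, by rw [hL]; simp, ?_⟩
    intro S hS _
    obtain ⟨z, hz⟩ := hMne
    refine ⟨z, hz, fun x hx => ?_⟩
    have := hS hx
    simp at this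
  by_contra hcon
  push Not at hcon
  have hcon' : ∀ a : Fin 2, ∀ L' ⊆ L, Good c n M L' a → 4 * r ^ 3 * L'.card < L.card := by
    intro a L' hL' hg
    by_contra h
    exact hcon a L' hL' (by omega) hg
  set L0 := L.filter (fun x => ∀ z ∈ M, ∀ t ∈ M, z ≠ t → c {x, z, t} = 0) with hL0
  set L1 := L.filter (fun x => ∀ z ∈ M, ∀ t ∈ M, z ≠ t → c {x, z, t} = 1) with hL1
  set L2 := L.filter (fun x => ¬ (∀ z ∈ M, ∀ t ∈ M, z ≠ t → c {x, z, t} = 0) ∧
    ¬ (∀ z ∈ M, ∀ t ∈ M, z ≠ t → c {x, z, t} = 1)) with hL2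
  have hLsub : L ⊆ (L0 ∪ L1) ∪ L2 := by
    intro x hx
    simp only [mem_union, hL0, hL1, hL2, mem_filter]
    tauto
  have hLc : L.card ≤ L0.card + L1.card + L2.card :=
    (card_le_card hLsub).trans ((card_union_le _ _).trans
      (Nat.add_le_add_right (card_union_le _ _) _))
  have g0 : Good c n M L0 1 := by
    refine good_const hq n L0 M (by omega) ?_ 0 1 (by decide) ?_
    · intro x hx z hz
      have := hc x (filter_subset _ _ hx) z hz
      exact ⟨fun x' hx' => this.1 x' (filter_subset _ _ hx'), this.2⟩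
    · intro x hx
      exact (mem_filter.1 hx).2
  have g1 : Good c n M L1 0 := by
    refine good_const hq n L1 M (by omega) ?_ 1 0 (by decide) ?_
    · intro x hx z hz
      have := hc x (filter_subset _ _ hx) z hz
      exact ⟨fun x' hx' => this.1 x' (filter_subset _ _ hx'), this.2⟩
    · intro x hx
      exact (mem_filter.1 hx).2
  have c0 := hcon' 1 L0 (filter_subset _ _) g0
  have c1 := hcon' 0 L1 (filter_subset _ _) g1
  -- the mixed part
  have hmix : ∀ x ∈ L2, ∃ w : (V × V) × (V × Fin 2), w ∈ (M ×ˢ M) ×ˢ (M ×ˢ (univ : Finset (Fin 2))) ∧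
      w.1.1 ≠ w.1.2 ∧ w.1.1 ≠ w.2.1 ∧ w.1.2 ≠ w.2.1 ∧ c {x, w.1.1, w.1.2} = w.2.2 ∧
      c {x, w.1.1, w.2.1} = w.2.2 ∧ c {x, w.1.2, w.2.1} ≠ w.2.2 := by
    intro x hx
    obtain ⟨_, h0, h1⟩ := mem_filter.1 hx
    push Not at h0 h1
    obtain ⟨a, ha, b, hb, hab, hcab⟩ := h0
    obtain ⟨d, hd, g, hg, hdg, hcdg⟩ := h1
    have hne : c {x, a, b} ≠ c {x, d, g} := by
      intro h
      apply hcab
      have : c {x, d, g} = 0 := fin2_ne hcdg (by decide)
      rw [h, this]
    obtain ⟨s, hs, z, hz, t, ht, hsz, hst, hzt, h2, h3⟩ := exists_mixed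
      (f := fun a b => c {x, a, b}) (fun a b => by rw [pair_comm a b]) M ha hb hd hg hab hdg hne
    refine ⟨((s, z), (t, c {x, s, z})), ?_, hsz, hst, hzt, rfl, h2.symm, h3⟩
    simp only [mem_product, mem_univ, and_true]
    exact ⟨⟨hs, hz⟩, ht⟩
  choose! w hw1 hw2 hw3 hw4 hw5 hw6 hw7 using hmix
  have hsum : L2.card = ∑ v ∈ (M ×ˢ M) ×ˢ (M ×ˢ (univ : Finset (Fin 2))),
      (L2.filter (fun x => w x = v)).card := card_eq_sum_card_fiberwise hw1
  have hfib : ∀ v ∈ (M ×ˢ M) ×ˢ (M ×ˢ (univ : Finset (Fin 2))),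
      4 * r ^ 3 * (L2.filter (fun x => w x = v)).card ≤ L.card := by
    intro v _
    rcases (L2.filter (fun x => w x = v)).eq_empty_or_nonempty with h0 | ⟨x0, hx0⟩
    · rw [h0]
      simp
    obtain ⟨hx0L, hx0v⟩ := mem_filter.1 hx0
    have hsub : L2.filter (fun x => w x = v) ⊆ L := (filter_subset _ _).trans (filter_subset _ _)
    obtain ⟨a, hea⟩ : ∃ a : Fin 2, v.2.2 ≠ a := by
      generalize v.2.2 = u
      revert u
      decide
    have hm := hw1 x0 hx0L
    rw [hx0v] at hm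
    simp only [mem_product, mem_univ, and_true] at hm
    refine (hcon' a _ hsub ?_).le
    refine good_mixed hq n _ M ?_ v.2.2 a hea v.1.1 v.1.2 v.2.1 hm.1.1 hm.1.2 hm.2 ?_ ?_ ?_ ?_ ?_ ?_
    · intro x hx z hz
      have := hc x (hsub hx) z hz
      exact ⟨fun x' hx' => this.1 x' (hsub hx'), this.2⟩
    · rw [← hx0v]
      exact hw2 x0 hx0L
    · rw [← hx0v]
      exact hw3 x0 hx0L
    · rw [← hx0v]
      exact hw4 x0 hx0L
    · intro x hx
      obtain ⟨hx1, hx2⟩ := mem_filter.1 hx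
      rw [← hx2]
      exact hw5 x hx1
    · intro x hx
      obtain ⟨hx1, hx2⟩ := mem_filter.1 hx
      rw [← hx2]
      exact hw6 x hx1
    · intro x hx
      obtain ⟨hx1, hx2⟩ := mem_filter.1 hx
      refine fin2_ne (e := v.2.2) ?_ hea.symm
      rw [← hx2]
      exact hw7 x hx1
  have h2 : 4 * r ^ 3 * L2.card ≤ (2 * r ^ 3) * L.card := by
    rw [hsum, mul_sum]
    refine (sum_le_sum hfib).trans ?_
    rw [sum_const, smul_eq_mul, card_product, card_product, card_product, hMr, card_univ,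
      Fintype.card_fin]
    apply le_of_eq
    ring
  have hR : 1 ≤ r ^ 3 := Nat.one_le_pow _ _ hr1
  have hLpos : 0 < L.card := card_pos.2 hL
  have h3 := Nat.mul_le_mul_left (4 * r ^ 3) hLc
  have h4 : (4 * r ^ 3) * (L0.card + L1.card + L2.card) =
      4 * r ^ 3 * L0.card + 4 * r ^ 3 * L1.card + 4 * r ^ 3 * L2.card := by ring
  have h5 : 2 * L.card ≤ (2 * r ^ 3) * L.card := Nat.mul_le_mul_right _ (by omega)
  have h6 : 4 * r ^ 3 * L.card = 2 * r ^ 3 * L.card + 2 * r ^ 3 * L.card := by ring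
  omega

end Pool.Agent.T2H15.CO
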